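import Pool.Agent.Helper72.EP.Spec2

/-! # MP_45fa85_co, module EP5: the positive half -/

namespace ErdPos

open Finset

section
variable {V : Type} [DecidableEq V]

lemma ep5_on (h3 : ST_CA) (G : SimpleGraph V) (S : Finset V) (T : Finset (Sym2 V))
    (h : Cyc G S T) (v : V) : On v T ↔ v ∈ S := by
  have ca := h3 V G
  constructor
  · rintro ⟨e, he, hv⟩
    obtain ⟨x, hx, y, hy, -, rfl⟩ := ca.tmem S T h e he
    rcases Sym2.mem_iff.1 hv with rfl | rfl
    · exact hx
    · exact hy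
  · intro hv
    have hd := ca.deg S T v h hv
    have hne : (T.filter (fun e => v ∈ e)).Nonempty := by
      rw [← card_pos, hd]
      norm_num
    obtain ⟨e, he⟩ := hne
    rw [mem_filter] at he
    exact ⟨e, he.1, he.2⟩

lemma ep5_cyc (G : SimpleGraph V) (F : Finset (Sym2 V)) (h : IsCyc G F) :
    ∃ S, Cyc G S F := by
  obtain ⟨v, c, hc, hF⟩ := h
  refine ⟨c.support.toFinset, v, c, hc, rfl, ?_⟩
  ext e
  rw [List.mem_toFinset]
  exact (hF e).symm

lemma ep5_isCyc (G : SimpleGraph V) (S : Finset V) (T : Finset (Sym2 V)) (h : Cyc G S T) :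
    IsCyc G T := by
  obtain ⟨v, c, hc, -, hT⟩ := h
  refine ⟨v, c, hc, fun e => ?_⟩
  rw [← hT, List.mem_toFinset]

end

theorem st_EP5 (h1 : ST_ENG) (h2 : ST_LOC) (h3 : ST_CA) : ST_EP5 := by
  classical
  intro E X inc 𝒟 hsys
  obtain ⟨h, hloc⟩ := h2
  obtain ⟨f, hf⟩ := h1 h 12
  refine ⟨fun k => f (4 * k), ?_⟩
  intro V _ G γ k hk
  let _ : Fintype V := Fintype.ofFinite V
  have ca := h3 V G
  have hconn : ∀ M, FA G γ inc 𝒟 M → Conn G M := by
    rintro M ⟨T, hT, -⟩
    exact ca.conn M T hT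
  rcases hf V G (FA G γ inc 𝒟) hconn (hloc V E X G γ inc 𝒟 hsys) univ (4 * k) with hP | hH
  · left
    obtain ⟨M, hM, hcong⟩ := hP
    have hfib : ∀ a ∈ (univ : Finset (Fin (4 * k))).image M,
        ((univ : Finset (Fin (4 * k))).filter (fun i => M i = a)).card ≤ 4 := by
      intro a ha
      obtain ⟨i, -, rfl⟩ := mem_image.1 ha
      obtain ⟨v, hv⟩ := (hconn _ (hM i).1).1
      refine (card_le_card ?_).trans (hcong v)
      intro j hj
      rw [mem_filter] at hj ⊢
      exact ⟨hj.1, by rw [hj.2]; exact hv⟩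
    have hcard := card_le_mul_card_image (f := M) (univ : Finset (Fin (4 * k))) 4 hfib
    rw [card_univ, Fintype.card_fin] at hcard
    have hcard' : k ≤ ((univ : Finset (Fin (4 * k))).image M).card := by omega
    obtain ⟨I, hI, hIc⟩ := exists_subset_card_eq hcard'
    have hex : ∀ S : Finset V, ∃ T : Finset (Sym2 V), S ∈ I → Cyc G S T ∧ vl γ T ∈ AS inc 𝒟 := by
      intro S
      by_cases hS : S ∈ I
      · obtain ⟨i, -, rfl⟩ := mem_image.1 (hI hS)
        obtain ⟨T, hT⟩ := (hM i).1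
        exact ⟨T, fun _ => hT⟩
      · exact ⟨∅, fun h => absurd h hS⟩
    choose T hT using hex
    have hinj : Set.InjOn T (I : Set (Finset V)) := by
      intro S hS S' hS' he
      ext v
      rw [← ep5_on h3 G S (T S) (hT S hS).1, he, ep5_on h3 G S' (T S') (hT S' hS').1]
    refine ⟨I.image T, ?_, ?_, ?_⟩
    · rw [card_image_of_injOn hinj, hIc]
    · intro F hF
      obtain ⟨S, hS, rfl⟩ := mem_image.1 hF
      exact ⟨ep5_isCyc G S _ (hT S hS).1, (hT S hS).2⟩
    · intro v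
      have hsub : {F | F ∈ I.image T ∧ On v F} ⊆
          (((univ : Finset (Fin (4 * k))).filter (fun i => v ∈ M i)).image
            (fun i => T (M i)) : Set (Finset (Sym2 V))) := by
        rintro F ⟨hF, hon⟩
        obtain ⟨S, hS, rfl⟩ := mem_image.1 hF
        obtain ⟨i, -, rfl⟩ := mem_image.1 (hI hS)
        rw [ep5_on h3 G _ _ (hT _ hS).1] at hon
        exact mem_coe.2 (mem_image.2 ⟨i, mem_filter.2 ⟨mem_univ _, hon⟩, rfl⟩)
      refine (Set.ncard_le_ncard hsub (finite_toSet _)).trans ?_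
      rw [Set.ncard_coe_finset]
      exact card_image_le.trans (hcong v)
  · right
    obtain ⟨Z, hZ, hhit⟩ := hH
    refine ⟨Z, hZ, ?_⟩
    intro F hF hA
    obtain ⟨S, hS⟩ := ep5_cyc G F hF
    obtain ⟨v, hvS, hvZ⟩ := hhit S ⟨F, hS, hA⟩ (subset_univ _)
    exact ⟨v, hvZ, (ep5_on h3 G S F hS v).2 hvS⟩

end ErdPos
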