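import Pool.Agent.Helper72.EP.Spec2

/-! # MP_45fa85_co, module POT: potentials -/

namespace ErdPos

open Finset

section
variable {V : Type} [DecidableEq V]

lemma pot_eq (h1 : ST_PA) (h2 : ST_CA) (G : SimpleGraph V) (C : Finset V)
    {M : Type} [AddCommGroup M] (ψ : Sym2 V → M) (hM : ∀ m : M, m + m = 0)
    (hc : ∀ S T, Cyc G S T → S ⊆ C → ∑ e ∈ T, ψ e = 0) :
    ∀ (n : ℕ) (a b : V) (S : Finset V) (T : Finset (Sym2 V)) (S' : Finset V)
      (T' : Finset (Sym2 V)), S.card = n → Pth G a b S T → Pth G a b S' T' → S ⊆ C → S' ⊆ C →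
      ∑ e ∈ T, ψ e = ∑ e ∈ T', ψ e := by
  have pa := h1 V G
  have ca := h2 V G
  intro n
  induction n using Nat.strong_induction_on with
  | _ n ih =>
    intro a b S T S' T' hn hP hP' hS hS'
    by_cases hab : a = b
    · subst hab
      rw [(pa.triv a S T hP).2, (pa.triv a S' T' hP').2]
    by_cases hTT : T = T'
    · rw [hTT]
    by_cases hsub : S ∩ S' ⊆ {a, b}
    · obtain ⟨hcyc, hdis⟩ := ca.mk2 a b S T S' T' hP hP' hab hsub hTT
      have h := hc _ _ hcyc (union_subset hS hS')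
      rw [sum_union hdis] at h
      have h3 := hM (∑ e ∈ T', ψ e)
      exact add_right_cancel (h.trans h3.symm)
    · obtain ⟨x, hx, hxab⟩ := not_subset.1 hsub
      rw [mem_inter] at hx
      rw [mem_insert, mem_singleton, not_or] at hxab
      obtain ⟨S1, T1, S2, T2, p1, p2, hi, hu, hd, ht⟩ := pa.split a b x S T hP hx.1
      obtain ⟨S1', T1', S2', T2', p1', p2', hi', hu', hd', ht'⟩ := pa.split a b x S' T' hP' hx.2
      have ha2 : a ∉ S2 := by
        intro h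
        have : a ∈ S1 ∩ S2 := mem_inter.2 ⟨(pa.ends _ _ _ _ p1).1, h⟩
        rw [hi, mem_singleton] at this
        exact hxab.1 this.symm
      have hb1 : b ∉ S1 := by
        intro h
        have : b ∈ S1 ∩ S2 := mem_inter.2 ⟨h, (pa.ends _ _ _ _ p2).2⟩
        rw [hi, mem_singleton] at this
        exact hxab.2 this.symm
      have hs1 : S1 ⊆ S := hu ▸ subset_union_left
      have hs2 : S2 ⊆ S := hu ▸ subset_union_right
      have hs1' : S1' ⊆ S' := hu' ▸ subset_union_left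
      have hs2' : S2' ⊆ S' := hu' ▸ subset_union_right
      have hc1 : S1.card < n := by
        rw [← hn]
        exact card_lt_card ⟨hs1, fun h => hb1 (h (pa.ends _ _ _ _ hP).2)⟩
      have hc2 : S2.card < n := by
        rw [← hn]
        exact card_lt_card ⟨hs2, fun h => ha2 (h (pa.ends _ _ _ _ hP).1)⟩
      have e1 := ih _ hc1 a x S1 T1 S1' T1' rfl p1 p1' (hs1.trans hS) (hs1'.trans hS')
      have e2 := ih _ hc2 x b S2 T2 S2' T2' rfl p2 p2' (hs2.trans hS) (hs2'.trans hS')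
      rw [← ht, ← ht', sum_union hd, sum_union hd', e1, e2]

end

theorem st_POT (h1 : ST_PA) (h2 : ST_CA) : ST_POT := by
  classical
  intro V _ _ G C hC M _ ψ hM hc
  have pa := h1 V G
  obtain ⟨r, hr⟩ := hC.1
  have hex : ∀ a, ∃ (S : Finset V) (T : Finset (Sym2 V)), a ∈ C → S ⊆ C ∧ Pth G r a S T := by
    intro a
    by_cases ha : a ∈ C
    · obtain ⟨S, T, h⟩ := pa.ofconn C r a hC hr ha
      exact ⟨S, T, fun _ => h⟩
    · exact ⟨∅, ∅, fun h => absurd h ha⟩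
  choose Sp Tp hp using hex
  refine ⟨fun a => ∑ e ∈ Tp a, ψ e, ?_⟩
  intro a b S T hP hS
  obtain ⟨haS, hbS⟩ := pa.ends _ _ _ _ hP
  obtain ⟨ha1, ha2⟩ := hp a (hS haS)
  obtain ⟨hb1, hb2⟩ := hp b (hS hbS)
  obtain ⟨x, hxS, R1, U1, R2, U2, q1, q2, hq, -, hqu, -, -⟩ := pa.first r a (Sp a) (Tp a) S ha2
    ⟨a, mem_inter.2 ⟨(pa.ends _ _ _ _ ha2).2, haS⟩⟩
  have hR1 : R1 ⊆ C := (hqu ▸ subset_union_left : R1 ⊆ Sp a).trans ha1
  obtain ⟨S1, T1, S2, T2, p1, p2, hi, hu, hd, ht⟩ := pa.split a b x S T hP hxS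
  have hs1 : S1 ⊆ S := hu ▸ subset_union_left
  have hs2 : S2 ⊆ S := hu ▸ subset_union_right
  have i1 : R1 ∩ S1 ⊆ {x} := by
    rw [← hq]
    exact inter_subset_inter_left hs1
  have i2 : R1 ∩ S2 ⊆ {x} := by
    rw [← hq]
    exact inter_subset_inter_left hs2
  obtain ⟨c1, d1⟩ := pa.concat r x a R1 U1 S1 T1 q1 p1.symm i1
  obtain ⟨c2, d2⟩ := pa.concat r x b R1 U1 S2 T2 q1 p2 i2
  have e1 := pot_eq h1 h2 G C ψ hM hc _ r a _ _ (Sp a) (Tp a) rfl c1 ha2
    (union_subset hR1 (hs1.trans hS)) ha1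
  have e2 := pot_eq h1 h2 G C ψ hM hc _ r b _ _ (Sp b) (Tp b) rfl c2 hb2
    (union_subset hR1 (hs2.trans hS)) hb1
  rw [sum_union d1] at e1
  rw [sum_union d2] at e2
  rw [← ht, sum_union hd]
  show _ = (∑ e ∈ Tp a, ψ e) + ∑ e ∈ Tp b, ψ e
  rw [← e1, ← e2, add_add_add_comm, hM, zero_add]

end ErdPos
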